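import Mathlib
import Pool.Agent.W484.CK.Main

/-!
# Parshin's conjecture and products with almost all abelian varieties

Let `g i` (`i` in a finite set `I`) be positive integers, `r` an integer smaller than all the `g i`
and `E` a number field.  For a prime power `q` let `S i` be the set of the characteristic
polynomials of Frobenius of the ordinary abelian varieties of dimension `g i` over the field with
`q` elements, or of all abelian varieties of dimension `g i`, or any set in between.  By Weil, Honda
and Tate its elements correspond to the isogeny classes, the first set contains `ordinaryWeilPolys q
(g i)`, and the second one is contained in `weilPolys q (g i)`.

For all families `f i` in `S i` with the exception of a proportion `O (q ^ (-1 / 6) log q)`, the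
constant depending only on `g` and `E`, the following holds for all `s > 0`, `Q = q ^ s`, all
abelian varieties `A` over the field with `Q` elements which are isogenous to products of powers of
abelian varieties coming from the field with `q` elements, with characteristic polynomials `f i`,
and **all** smooth projective varieties `Z` over the field with `Q` elements such that

* the eigenvalues of Frobenius on the cohomology of `Z` and their conjugates generate a group of rank
  at most `r` modulo the group of the numbers with a power in `E`;
* homologically trivial self-correspondences of degree zero of `A × Z` are nilpotent, for instance
  the motive of `Z` is finite-dimensional in the sense of Kimura and O'Sullivan. This is known for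
  all varieties dominated by products of curves, and for their products with `A`.

There are finitely many products `D j` of divisors on `A` such that for every theory `T` on which
the correspondences with rational coefficients act and on which the Frobenius endomorphism of `A × Z`
acts in weight `i` as multiplication by `Q ^ i`, for instance for the rational motivic cohomology
`T^i(X) = H^(2 i - m)(X, ℚ(i)) = CH^i(X, m)_ℚ` with fixed `m`,

`T^i(A × Z) = ⨁ D j × T^(i - deg D j)(Z)`, for all `i`,

and `T^i(A × Z) = 0` for all `i ≤ n` if and only if `T^i(Z) = 0` for all `i ≤ n`. Applied to all
`m > 0` this says: **Parshin's conjecture `P^n` holds for `A × Z` if and only if it holds for `Z`**,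
for each `n`. For instance for `Z` a point, an arbitrary product of such varieties, or a variety for
which Parshin's conjecture is known, it holds for `A × Z` in all weights.

For `r = 0` the assumption on the eigenvalues is: the eigenvalues of Frobenius and their conjugates
have powers in `E`.  If for instance `Z` is any given variety over the field with `q'` elements, one
can take for `E` the field generated by the eigenvalues of Frobenius and their conjugates, and
applies the theorem to the powers `q` of `q'`.

The framework (`TheoryData`, `IsChow`, `IsWeil`) is the one of helper492: the Chow groups `C` with
their pull-backs, push-forwards and products, and a Weil cohomology theory `H` with coefficients in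
an algebraically closed field `K`, on a class `𝒱` of smooth proper varieties over `k`.

The idea of the proof (all of it is contained in the modules of the starting library that are
imported here, which no hand-in used): by a sieve (helper521), which only uses the primes that split
completely in the Galois closure of `E` - these have positive density by the theorem of Chebotarev,
formalized by helper401 - almost all families are such that each pair `α`, `q / α` of roots can be
exchanged by a Galois automorphism which fixes all the other roots of all the `f i` and also all
elements of `E`. It follows that the generalized eigenvectors of Frobenius in the cohomology of
`A × Z` for the eigenvalues `Q ^ i` are sums of products of classes of products of divisors on `A`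
and of classes on `Z`. Let `p` be the projector given by the `D j` and dual classes, and `P` a
polynomial killing all the other eigenvalues and with `P (Q ^ i) = 1`. The correspondence
`(1 - p) P (F)` is homologically trivial, hence nilpotent; as it acts on `T^i(A × Z)` as the
idempotent `1 - p`, this idempotent is zero. (The idea to play the eigenvalues of Frobenius off
against nilpotence is due to Soule, Geisser and Kahn.)
-/

set_option autoImplicit false

namespace Pool.Agent.Results.MP_de59b4_ag.AlmostAllAbelianFactors

open Polynomial Pool.Agent.W521.Descent Pool.Agent.W521.Count Pool.Agent.W484.TB
  Pool.Agent.W484.CK

/-- `weilPolys q g` is the set of monic integral polynomials of degree `2 g` with constant term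
`q ^ g` and all roots of absolute value `√q`; `ordinaryWeilPolys q g` is the subset of those
whose coefficient of index `g` is prime to `q`. -/
theorem result {I : Type} [Fintype I] (g : I → ℕ) (r : ℕ) (hr : ∀ i, r < g i)
    (E : IntermediateField ℚ ℂ) [FiniteDimensional ℚ E] :
    ∃ C : ℝ, ∀ q : ℕ, IsPrimePow q → ∀ S : I → Set ℤ[X],
      (∀ i, ordinaryWeilPolys q (g i) ⊆ S i ∧ S i ⊆ weilPolys q (g i)) →
      (∀ i, (S i).Finite ∧ (S i).Nonempty) ∧
      ({f : I → ℤ[X] | (∀ i, f i ∈ S i) ∧ ¬ MotivicForRankOver E q r f}.ncard : ℝ) ≤
        C * (Real.log q * (q : ℝ) ^ (-(1 / 6) : ℝ)) * ∏ i, ((S i).ncard : ℝ) :=
  count_of_goodU (splitPrimes E) (dense_splitPrimes E) g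
    (fun i => (Nat.zero_le r).trans_lt (hr i)) (fun q f => MotivicForRankOver E q r f)
    fun _ hq x hx => motivicForRankOver_of_good g E hq.one_lt r hr x hx

end Pool.Agent.Results.MP_de59b4_ag.AlmostAllAbelianFactors
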