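import Pool.Agent.TH90.Cub.NatT

set_option autoImplicit false

open CategoryTheory AlgebraicGeometry Pool.Agent.TH90.Cub

namespace Pool.Agent.Results.MP_de59b4_ag.CubicHypersurfaces

variable {F : Type} [Field F]

/-- The standard grading of the polynomial ring in `N + 1` variables. -/
noncomputable abbrev grading (F : Type) [Field F] (N : ℕ) :
    ℕ → Submodule F (MvPolynomial (Fin (N + 1)) F) :=
  MvPolynomial.homogeneousSubmodule (Fin (N + 1)) F

attribute [local instance] MvPolynomial.gradedAlgebra in
/-- The projective space of dimension `N` over `F`. -/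
noncomputable def PSpace (F : Type) [Field F] (N : ℕ) : FSch F :=
  ⟨Proj (grading F N), Proj.toSpecZero (grading F N) ≫
    Spec.map (CommRingCat.ofHom (algebraMap F (grading F N 0)))⟩

/-- `X` is smooth and projective over `F`: it is smooth, separated and of finite type, and a closed
subscheme of a projective space over `F`. -/
def SmoothProjective (X : FSch F) : Prop :=
  Smooth X.f ∧ FT True F X.f ∧ ∃ (N : ℕ) (i : X.X ⟶ (PSpace F N).X), IsClosedImmersion i ∧
    i ≫ (PSpace F N).f = X.f

/-- Rational motivic Borel-Moore homology `M`, i.e. `H_i^c(X, ℚ(n))` in degree `(i, n)`, weight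
homology `W` and the comparison map `γ : M → W` for the separated schemes of finite type over a
field `F`. For smooth projective `X`, weight homology is concentrated in degrees `(2n, n)`, in which
`γ` is bijective (both groups are the Chow group `CH_n(X) ⊗ ℚ` there), and if `γ` is bijective for
all smooth projective schemes, then for all schemes (alterations). -/
structure WeightComparison {M W : Theory F ℚ} (γ : NatMap M W) : Prop where
  formal : NatFormalism γ
  pure : ∀ X, SmoothProjective X → ∀ i n : ℤ, i ≠ 2 * n → Subsingleton (W.G i n X)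
  chow : ∀ X, SmoothProjective X → ∀ n : ℤ, (γ.at (2 * n) n X).Bij
  generated : ∀ n : ℤ, (∀ X, SmoothProjective X → ∀ i, (γ.at i n X).Bij) →
    ∀ X : FSch F, FT True F X.f → ∀ i, (γ.at i n X).Bij

/-- The statement `P(n)`: `H_i^c(X, ℚ(n)) = 0` for all smooth projective `X` and all `i ≠ 2n`. If `X`
has pure dimension `d`, the group is `H^{2d - i}(X, ℚ(d - n))`. -/
def Parshin (M : Theory F ℚ) (n : ℤ) : Prop :=
  ∀ X, SmoothProjective X → ∀ i : ℤ, i ≠ 2 * n → Subsingleton (M.G i n X)

theorem parshin_iff {M W : Theory F ℚ} {γ : NatMap M W} (hγ : WeightComparison γ) (n : ℤ) :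
    Parshin M n ↔ ∀ (X : Scheme.{0}) (f : X ⟶ Spec (CommRingCat.of F)), FT True F f →
      γ.BijAt n ⟨X, f⟩ := by
  constructor
  · intro h X f hf
    refine hγ.generated n (fun Y hY i => ?_) ⟨X, f⟩ hf
    by_cases hi : i = 2 * n
    · subst hi
      exact hγ.chow Y hY n
    · have h1 := h Y hY i hi
      have h2 := hγ.pure Y hY i n hi
      exact ⟨fun a b _ => Subsingleton.elim a b, fun c => ⟨0, Subsingleton.elim _ _⟩⟩
  · intro h X hX i hi
    have h2 := hγ.pure X hX i n hi
    have h3 := (h X.X X.f hX.2.1 i).1
    exact ⟨fun a b => h3 (Subsingleton.elim _ _)⟩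

/-- Let `K ⊆ F` generate the ring `F`, `1 ∈ K` (if `F` is a prime field, `K = {1}` will do). A gate
is one of the polynomials `x_a x_b - x_c`, `x_a + x_b - x_c`, `x_a - c`, `c ∈ K`.

For each `n`, the statement `P(n)` holds if and only if the comparison map
`H_i^c(X, ℚ(n)) → H_i^W(X, ℚ(n))` is bijective for all `i` and all complements `X` in affine spaces
of the hypersurfaces `h = 0`, where `h` is a product of gates. Parshin's conjecture (`P(n)` for all
`n`) holds if and only if the comparison map is bijective in all degrees for all smooth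
hypersurfaces `g_0 t_0 + ⋯ + g_r t_r = 1` of degree at most three in affine spaces over `F`, where
each `g_i` is a gate. -/
theorem result {M W : Theory F ℚ} (γ : NatMap M W) (hγ : WeightComparison γ) (K : Set F)
    (hK : Subring.closure K = ⊤) (h1 : (1 : F) ∈ K) :
    (∀ n, Parshin M n ↔
      ∀ (N : ℕ) (h : MvPolynomial (Fin N) F), h ∈ Submonoid.closure {g | IsGate K g} →
        ∀ i, (γ.at i n (CompF h)).Bij) ∧
    ((∀ n, Parshin M n) ↔
      ∀ (N r : ℕ) (g : Fin (r + 1) → MvPolynomial (Fin N) F), (∀ j, IsGate K (g j)) →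
        ∀ n i, (γ.at i n (SpecF (Cubic g))).Bij) ∧
    (∀ (N r : ℕ) (g : Fin (r + 1) → MvPolynomial (Fin N) F), Smooth (str F (Cubic g))) := by
  refine ⟨fun n => (parshin_iff hγ n).trans (nat_gates hγ.formal hK h1 n), ?_, ?_⟩
  · refine Iff.trans ?_ (nat_cubics hγ.formal hK h1)
    exact ⟨fun h X f hf n => (parshin_iff hγ n).mp (h n) X f hf,
      fun h n => (parshin_iff hγ n).mpr fun X f hf => h X f hf n⟩
  · intro N r g
    have := smooth_mv F N
    exact hyp_smooth_scheme F _ g

end Pool.Agent.Results.MP_de59b4_ag.CubicHypersurfaces
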